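import Pool.Agent.H64.EP.Targets

/-!
# Module EXF of the board ep_modules (MP_e01ba1_co)
-/

set_option autoImplicit false

open Finset
open scoped Classical

namespace Pool.Agent.H48.EP.EXF

open Pool.Agent.H64.EP

/-- the data which are not covered -/
noncomputable def unc {k L R m : ℕ} (j : Fin k) (Y : Fin m → Fin k × Dat k L R) :
    Finset (Dat k L R) :=
  (univ : Finset (Dat k L R)).filter (fun z => ∀ q, ¬ adj (Y q) (j, z))

/-- the data which have no neighbour in the second sample -/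
noncomputable def nad {k L R b : ℕ} (i j : Fin k) (z : Fin b → Dat k L R) :
    Finset (Dat k L R) :=
  (univ : Finset (Dat k L R)).filter (fun x => ∀ t, ¬ adj (i, x) (j, z t))

/-- a pattern which is constant on a set and full outside -/
noncomputable def pat {I D : Type} [Fintype D] (P : I → Prop) (U : Finset D) (t : I) :
    Finset D :=
  if P t then U else univ

theorem prod_pat {I D : Type} [Fintype I] [Fintype D] [Nonempty D] (P : I → Prop)
    (U : Finset D) (b : ℕ) (s : Finset I) (hs : ∀ t, t ∈ s ↔ P t) (hb : s.card = b) (δ : ℝ)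
    (hU : ((U.card : ℝ)) ≤ δ * (Fintype.card D : ℝ)) :
    ∏ t, (((pat P U t).card : ℝ) / (Fintype.card D : ℝ)) ≤ δ ^ b := by
  have hD : (0 : ℝ) < (Fintype.card D : ℝ) := by exact_mod_cast Fintype.card_pos
  have h1 : ∀ t, (((pat P U t).card : ℝ) / (Fintype.card D : ℝ)) =
      if P t then ((U.card : ℝ) / (Fintype.card D : ℝ)) else 1 := by
    intro t
    unfold pat
    by_cases h : P t
    · rw [if_pos h, if_pos h]
    · rw [if_neg h, if_neg h, Finset.card_univ, div_self hD.ne']
  have h2 : (univ : Finset I).filter P = s := by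
    ext t
    rw [Finset.mem_filter, hs t]
    exact ⟨fun h => h.2, fun h => ⟨Finset.mem_univ _, h⟩⟩
  rw [Finset.prod_congr rfl (fun t _ => h1 t), Finset.prod_ite, Finset.prod_const,
    Finset.prod_const_one, mul_one, h2, hb]
  refine pow_le_pow_left₀ (by positivity) ?_ b
  rw [div_le_iff₀ hD]
  exact hU

theorem prod_one {k n₀ b : ℕ} {D : Type} [Fintype D] [Nonempty D] (U : Finset D) (j : Fin k)
    (B : Fin b → Fin n₀) (hB : Function.Injective B) (δ : ℝ)
    (hU : ((U.card : ℝ)) ≤ δ * (Fintype.card D : ℝ)) :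
    ∏ t, (((pat (fun t : Fin k × Fin n₀ => t.1 = j ∧ ∃ s, B s = t.2) U t).card : ℝ) /
      (Fintype.card D : ℝ)) ≤ δ ^ b := by
  refine prod_pat _ U b ((univ : Finset (Fin b)).image (fun s => (j, B s))) ?_ ?_ δ hU
  · rintro ⟨i, p⟩
    simp only [Finset.mem_univ, true_and, Finset.mem_image, Prod.mk.injEq]
    constructor
    · rintro ⟨s, h1, h2⟩
      exact ⟨h1.symm, s, h2⟩
    · rintro ⟨h1, s, h2⟩
      exact ⟨s, h1.symm, h2⟩
  · rw [Finset.card_image_of_injective _ (fun s s' hs => hB (congrArg Prod.snd hs)),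
      Finset.card_univ, Fintype.card_fin]

theorem prod_two {k n₀ a : ℕ} {D : Type} [Fintype D] [Nonempty D] (U : Finset D) (i : Fin k)
    (A : Finset (Fin n₀)) (hA : A.card = a) (c : ℝ)
    (hU : ((U.card : ℝ)) ≤ c * (Fintype.card D : ℝ)) :
    ∏ t, (((pat (fun t : Fin k × Fin n₀ => t.1 = i ∧ t.2 ∈ A) U t).card : ℝ) /
      (Fintype.card D : ℝ)) ≤ c ^ a := by
  refine prod_pat _ U a (A.image (fun p => (i, p))) ?_ ?_ c hU
  · rintro ⟨i', p⟩
    simp only [Finset.mem_image, Prod.mk.injEq]
    constructor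
    · rintro ⟨s, h1, h2, h3⟩
      subst h3
      exact ⟨h2.symm, h1⟩
    · rintro ⟨h1, h2⟩
      exact ⟨p, h2, h1.symm, rfl⟩
  · rw [Finset.card_image_of_injective _ (fun s s' hs => congrArg Prod.snd hs), hA]

/-- index type of the first family -/
abbrev J1 (k L R n₀ b m : ℕ) (δ : ℝ) : Type :=
  {t : Fin k × (Fin b → Fin n₀) × (Fin m → Fin k × Dat k L R) //
    Function.Injective t.2.1 ∧
      ((unc t.1 t.2.2).card : ℝ) ≤ δ * (Fintype.card (Dat k L R) : ℝ)}

/-- index type of the second family -/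
abbrev J2 (k L R n₀ b a : ℕ) (c : ℝ) : Type :=
  {t : Fin k × Fin k × (Fin b → Dat k L R) × Finset (Fin n₀) //
    t.2.2.2.card = a ∧
      ((nad t.1 t.2.1 t.2.2.1).card : ℝ) ≤ c * (Fintype.card (Dat k L R) : ℝ)}

theorem pf_EXF (hU : T_UB) : T_EXF := by
  intro k L R n₀ b m a c δ hc hδ hL hR hlt
  have hne : Nonempty (Dat k L R) := by
    have h1 : Nonempty (Fin L) := ⟨⟨0, by omega⟩⟩
    have h2 : Nonempty (Fin R) := ⟨⟨0, by omega⟩⟩
    exact ⟨fun _ => ((Classical.arbitrary _, Classical.arbitrary _), fun _ => Classical.arbitrary _)⟩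
  have hub := hU (Fin k × Fin n₀) (Dat k L R) (J1 k L R n₀ b m δ ⊕ J2 k L R n₀ b a c)
    (Sum.elim
      (fun p => pat (fun t => t.1 = p.1.1 ∧ ∃ s, p.1.2.1 s = t.2) (unc p.1.1 p.1.2.2))
      (fun p => pat (fun t => t.1 = p.1.1 ∧ t.2 ∈ p.1.2.2.2) (nad p.1.1 p.1.2.1 p.1.2.2.1))) ?_
  · obtain ⟨f, hf⟩ := hub
    refine ⟨fun j p => f (j, p), ?_, ?_⟩
    · intro j B Y hB hY
      obtain ⟨⟨i', p⟩, ht⟩ := hf (Sum.inl ⟨(j, B, Y), hB, hY⟩)
      simp only [Sum.elim_inl, pat] at ht
      by_cases hc1 : i' = j ∧ ∃ s, B s = p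
      · rw [if_pos hc1] at ht
        obtain ⟨rfl, s, rfl⟩ := hc1
        unfold unc at ht
        rw [Finset.mem_filter] at ht
        by_contra hno
        apply ht
        refine ⟨Finset.mem_univ _, fun q hq => hno ⟨s, q, hq⟩⟩
      · rw [if_neg hc1] at ht
        exact absurd (Finset.mem_univ _) ht
    · intro i j z A hA hN
      obtain ⟨⟨i', p⟩, ht⟩ := hf (Sum.inr ⟨(i, j, z, A), hA, hN⟩)
      simp only [Sum.elim_inr, pat] at ht
      by_cases hc1 : i' = i ∧ p ∈ A
      · rw [if_pos hc1] at ht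
        obtain ⟨rfl, hp⟩ := hc1
        unfold nad at ht
        rw [Finset.mem_filter] at ht
        by_contra hno
        apply ht
        refine ⟨Finset.mem_univ _, fun t hq => hno ⟨p, hp, t, hq⟩⟩
      · rw [if_neg hc1] at ht
        exact absurd (Finset.mem_univ _) ht
  · refine lt_of_le_of_lt ?_ hlt
    rw [Fintype.sum_sum_type]
    refine add_le_add ?_ ?_
    · refine le_trans (Finset.sum_le_card_nsmul _ _ (δ ^ b) ?_) ?_
      · rintro ⟨⟨j, B, Y⟩, hB, hY⟩ _
        exact prod_one _ j B hB δ hY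
      · rw [nsmul_eq_mul, Finset.card_univ]
        refine mul_le_mul_of_nonneg_right ?_ (pow_nonneg hδ b)
        have h1 : Fintype.card (J1 k L R n₀ b m δ) ≤
            Fintype.card (Fin k × (Fin b → Fin n₀) × (Fin m → Fin k × Dat k L R)) :=
          Fintype.card_subtype_le _
        have h2 : Fintype.card (Fin k × (Fin b → Fin n₀) × (Fin m → Fin k × Dat k L R)) =
            k * n₀ ^ b * (k * Fintype.card (Dat k L R)) ^ m := by
          rw [Fintype.card_prod, Fintype.card_prod, Fintype.card_fun, Fintype.card_fun,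
            Fintype.card_prod, Fintype.card_fin, Fintype.card_fin, Fintype.card_fin,
            Fintype.card_fin, mul_assoc]
        rw [h2] at h1
        calc (Fintype.card (J1 k L R n₀ b m δ) : ℝ)
            ≤ ((k * n₀ ^ b * (k * Fintype.card (Dat k L R)) ^ m : ℕ) : ℝ) := by
              exact_mod_cast h1
          _ = _ := by push_cast; ring
    · refine le_trans (Finset.sum_le_card_nsmul _ _ (c ^ a) ?_) ?_
      · rintro ⟨⟨i, j, z, A⟩, hA, hN⟩ _
        exact prod_two _ i A hA c hN
      · rw [nsmul_eq_mul, Finset.card_univ]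
        refine mul_le_mul_of_nonneg_right ?_ (pow_nonneg hc a)
        have h1 : Fintype.card (J2 k L R n₀ b a c) ≤
            Fintype.card (Fin k × Fin k × (Fin b → Dat k L R) × Finset (Fin n₀)) :=
          Fintype.card_subtype_le _
        have h2 : Fintype.card (Fin k × Fin k × (Fin b → Dat k L R) × Finset (Fin n₀)) =
            k ^ 2 * Fintype.card (Dat k L R) ^ b * 2 ^ n₀ := by
          rw [Fintype.card_prod, Fintype.card_prod, Fintype.card_prod, Fintype.card_fun,
            Fintype.card_finset, Fintype.card_fin, Fintype.card_fin, Fintype.card_fin]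
          ring
        rw [h2] at h1
        calc (Fintype.card (J2 k L R n₀ b a c) : ℝ)
            ≤ ((k ^ 2 * Fintype.card (Dat k L R) ^ b * 2 ^ n₀ : ℕ) : ℝ) := by
              exact_mod_cast h1
          _ = _ := by push_cast; ring

end Pool.Agent.H48.EP.EXF
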